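import Mathlib

/-!
# Words, longest common initial parts, the metric of the free group and its completion
-/

set_option autoImplicit false

namespace Pool.Agent.H219_EQ

open FreeGroup hiding norm map_mul map_inv map_one

/-- the length of the longest common initial part of two lists -/
def lcpl {α : Type} [DecidableEq α] : List α → List α → ℕ
  | a :: l, b :: m => if a = b then lcpl l m + 1 else 0
  | _, _ => 0

section lists
variable {α : Type} [DecidableEq α]

@[simp] theorem lcpl_nil_left (m : List α) : lcpl [] m = 0 := by
  cases m <;> rfl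

@[simp] theorem lcpl_nil_right (m : List α) : lcpl m [] = 0 := by
  cases m <;> rfl

theorem lcpl_cons (a b : α) (l m : List α) :
    lcpl (a :: l) (b :: m) = if a = b then lcpl l m + 1 else 0 := rfl

theorem lcpl_comm (l m : List α) : lcpl l m = lcpl m l := by
  induction l generalizing m with
  | nil => simp
  | cons a l ih =>
    cases m with
    | nil => simp
    | cons b m =>
      rw [lcpl_cons, lcpl_cons, ih m]
      by_cases h : a = b
      · rw [if_pos h, if_pos h.symm]
      · rw [if_neg h, if_neg (fun h' => h h'.symm)]

theorem lcpl_self (l : List α) : lcpl l l = l.length := by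
  induction l with
  | nil => simp
  | cons a l ih => rw [lcpl_cons, if_pos rfl, ih, List.length_cons]

theorem lcpl_le_left (l m : List α) : lcpl l m ≤ l.length := by
  induction l generalizing m with
  | nil => simp
  | cons a l ih =>
    cases m with
    | nil => simp
    | cons b m =>
      rw [lcpl_cons, List.length_cons]
      split_ifs
      · exact Nat.succ_le_succ (ih m)
      · exact Nat.zero_le _

theorem lcpl_le_right (l m : List α) : lcpl l m ≤ m.length := by
  rw [lcpl_comm]
  exact lcpl_le_left m l

theorem lcpl_ultra (k l m : List α) : min (lcpl k l) (lcpl l m) ≤ lcpl k m := by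
  induction k generalizing l m with
  | nil => simp
  | cons a k ih =>
    cases l with
    | nil => simp
    | cons b l =>
      cases m with
      | nil => simp
      | cons c m =>
        rw [lcpl_cons, lcpl_cons, lcpl_cons]
        by_cases h1 : a = b
        · by_cases h2 : b = c
          · rw [if_pos h1, if_pos h2, if_pos (h1.trans h2)]
            have := ih l m
            omega
          · rw [if_neg h2]
            simp
        · rw [if_neg h1]
          simp

theorem lcpl_append (p l m : List α) : lcpl (p ++ l) (p ++ m) = p.length + lcpl l m := by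
  induction p with
  | nil => simp
  | cons a p ih =>
    rw [List.cons_append, List.cons_append, lcpl_cons, if_pos rfl, ih, List.length_cons]
    omega

/-- splitting off the longest common initial part -/
theorem lcpl_split (l m : List α) : ∃ p l' m' : List α, l = p ++ l' ∧ m = p ++ m' ∧
    p.length = lcpl l m ∧ ∀ a b l'' m'', l' = a :: l'' → m' = b :: m'' → a ≠ b := by
  induction l generalizing m with
  | nil => exact ⟨[], [], m, by simp, by simp, by simp, by simp⟩
  | cons a l ih =>
    cases m with
    | nil => exact ⟨[], a :: l, [], by simp, by simp, by simp, by simp⟩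
    | cons b m =>
      by_cases h : a = b
      · obtain ⟨p, l', m', h1, h2, h3, h4⟩ := ih m
        refine ⟨a :: p, l', m', by rw [h1]; rfl, by rw [h2, h]; rfl, ?_, h4⟩
        rw [lcpl_cons, if_pos h, List.length_cons, h3]
      · refine ⟨[], a :: l, b :: m, by simp, by simp, ?_, ?_⟩
        · rw [lcpl_cons, if_neg h, List.length_nil]
        · intro a' b' l'' m'' h1 h2
          injection h1 with h1 _
          injection h2 with h2 _
          rw [← h1, ← h2]
          exact h

/-- a common initial part of given length -/
theorem lcpl_take (l m : List α) (K : ℕ) (h : K ≤ lcpl l m) : ∃ p l' m' : List α, l = p ++ l' ∧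
    m = p ++ m' ∧ p.length = K := by
  obtain ⟨p, l', m', h1, h2, h3, -⟩ := lcpl_split l m
  refine ⟨p.take K, p.drop K ++ l', p.drop K ++ m', ?_, ?_, ?_⟩
  · rw [← List.append_assoc, List.take_append_drop, h1]
  · rw [← List.append_assoc, List.take_append_drop, h2]
  · rw [List.length_take, h3]
    omega

end lists

section free

theorem IsReduced_left {α : Type} {L M : List (α × Bool)} (h : IsReduced (L ++ M)) : IsReduced L := by
  unfold FreeGroup.IsReduced at *
  exact (List.isChain_append.1 h).1

theorem IsReduced_right {α : Type} {L M : List (α × Bool)} (h : IsReduced (L ++ M)) : IsReduced M := by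
  unfold FreeGroup.IsReduced at *
  exact (List.isChain_append.1 h).2.1

variable {α β : Type} [DecidableEq α] [DecidableEq β]

theorem toWord_mk_red {L : List (α × Bool)} (h : IsReduced L) : (mk L).toWord = L := by
  rw [toWord_mk, h.reduce_eq]

theorem IsReduced_invRev {L : List (α × Bool)} (h : IsReduced L) : IsReduced (invRev L) := by
  rw [isReduced_iff_reduce_eq, reduce_invRev, h.reduce_eq]

/-- the length formula -/
theorem norm_formula (u v : FreeGroup α) :
    FreeGroup.norm (u⁻¹ * v) + 2 * lcpl u.toWord v.toWord = FreeGroup.norm u + FreeGroup.norm v := by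
  obtain ⟨p, l, m, h1, h2, h3, h4⟩ := lcpl_split u.toWord v.toWord
  have hu : u = mk p * mk l := by
    rw [mul_mk, ← h1, mk_toWord]
  have hv : v = mk p * mk m := by
    rw [mul_mk, ← h2, mk_toWord]
  have hl : IsReduced l := IsReduced_right (L := p) (by rw [← h1]; exact isReduced_toWord)
  have hm : IsReduced m := IsReduced_right (L := p) (by rw [← h2]; exact isReduced_toWord)
  have huv : u⁻¹ * v = mk (invRev l ++ m) := by
    rw [hu, hv, ← mul_mk, ← inv_mk]
    group
  have hred : IsReduced (invRev l ++ m) := by
    cases l with
    | nil => simpa using hm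
    | cons a l' =>
      cases m with
      | nil => simpa using IsReduced_invRev hl
      | cons b m' =>
        have e : invRev (a :: l') = invRev l' ++ [(a.1, !a.2)] := by simp [invRev]
        rw [e]
        refine IsReduced.append_overlap (L₂ := [(a.1, !a.2)]) ?_ ?_ (by simp)
        · rw [← e]
          exact IsReduced_invRev hl
        · rw [List.singleton_append, isReduced_cons_cons]
          refine ⟨fun hab => ?_, hm⟩
          have hne := h4 a b l' m' rfl rfl
          have h5 : a.2 ≠ b.2 := fun h => hne (Prod.ext hab h)
          revert h5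
          cases a.2 <;> cases b.2 <;> simp
  have e1 : FreeGroup.norm (u⁻¹ * v) = l.length + m.length := by
    rw [huv, FreeGroup.norm, toWord_mk_red hred, List.length_append, invRev_length]
  have e2 : FreeGroup.norm u = p.length + l.length := by
    rw [FreeGroup.norm, h1, List.length_append]
  have e3 : FreeGroup.norm v = p.length + m.length := by
    rw [FreeGroup.norm, h2, List.length_append]
  rw [e1, e2, e3, ← h3]
  ring

theorem norm_mk_red {L : List (α × Bool)} (h : IsReduced L) : FreeGroup.norm (mk L) = L.length := by
  rw [FreeGroup.norm, toWord_mk_red h]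

/-- a linear lower bound makes a homomorphism uniformly continuous -/
theorem cp_large (φ : FreeGroup α →* FreeGroup β) (M : ℕ) (h1 : ∀ a, FreeGroup.norm (φ (of a)) ≤ M)
    (h2 : ∀ x, FreeGroup.norm x ≤ M * FreeGroup.norm (φ x)) (R : ℕ) :
    ∃ K, ∀ x y, K ≤ lcpl x.toWord y.toWord → R ≤ lcpl (φ x).toWord (φ y).toWord := by
  have h1' : ∀ a : α × Bool, FreeGroup.norm (φ (mk [a])) ≤ M := by
    rintro ⟨a, b⟩
    cases b
    · have : mk [(a, false)] = (of a)⁻¹ := by simp [of, invRev]
      rw [this, map_inv, norm_inv_eq]
      exact h1 a
    · exact h1 a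
  have hbig : ∀ L : List (α × Bool), IsReduced L → M * (R + M) + 1 ≤ L.length →
      R + M ≤ FreeGroup.norm (φ (mk L)) := by
    intro L hL hK
    have := h2 (mk L)
    rw [norm_mk_red hL] at this
    by_contra hc
    have h3 : FreeGroup.norm (φ (mk L)) ≤ R + M := by omega
    have h4 := Nat.mul_le_mul_left M h3
    omega
  have key : ∀ (p s : List (α × Bool)), IsReduced (p ++ s) → M * (R + M) + 1 ≤ p.length →
      R ≤ lcpl (φ (mk p)).toWord (φ (mk (p ++ s))).toWord := by
    intro p s
    induction s using List.reverseRecOn with
    | nil =>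
      intro h hp
      rw [List.append_nil] at h ⊢
      rw [lcpl_self]
      have := hbig p h hp
      rw [FreeGroup.norm] at this
      omega
    | append_singleton s a ih =>
      intro h hp
      rw [← List.append_assoc] at h ⊢
      have h3 := IsReduced_left h
      have h4 := ih h3 hp
      have h5 := hbig (p ++ s) h3 (by rw [List.length_append]; omega)
      have h6 := hbig (p ++ s ++ [a]) h (by simp only [List.length_append]; omega)
      have h7 := norm_formula (φ (mk (p ++ s))) (φ (mk (p ++ s ++ [a])))
      have h8 : (φ (mk (p ++ s)))⁻¹ * φ (mk (p ++ s ++ [a])) = φ (mk [a]) := by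
        rw [← mul_mk (L₁ := p ++ s), map_mul, inv_mul_cancel_left]
      rw [h8] at h7
      have h9 := h1' a
      refine le_trans (le_min h4 ?_) (lcpl_ultra _ (φ (mk (p ++ s))).toWord _)
      omega
  refine ⟨M * (R + M) + 1, fun x y hxy => ?_⟩
  obtain ⟨p, s, s', e1, e2, e3⟩ := lcpl_take _ _ _ hxy
  have hx := key p s (by rw [← e1]; exact isReduced_toWord) e3.ge
  have hy := key p s' (by rw [← e2]; exact isReduced_toWord) e3.ge
  rw [← e1, mk_toWord, lcpl_comm] at hx
  rw [← e2, mk_toWord] at hy
  exact le_trans (le_min hx hy) (lcpl_ultra _ _ _)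

theorem lcpl_mul (g x y : FreeGroup α) :
    lcpl x.toWord y.toWord ≤ lcpl (g * x).toWord (g * y).toWord + FreeGroup.norm g := by
  have h1 := norm_formula x y
  have h2 := norm_formula (g * x) (g * y)
  have h3 : (g * x)⁻¹ * (g * y) = x⁻¹ * y := by group
  have h4 : FreeGroup.norm x ≤ FreeGroup.norm g + FreeGroup.norm (g * x) := by
    have h := FreeGroup.norm_mul_le g⁻¹ (g * x)
    rw [FreeGroup.norm_inv_eq, inv_mul_cancel_left] at h
    exact h
  have h5 : FreeGroup.norm y ≤ FreeGroup.norm g + FreeGroup.norm (g * y) := by
    have h := FreeGroup.norm_mul_le g⁻¹ (g * y)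
    rw [FreeGroup.norm_inv_eq, inv_mul_cancel_left] at h
    exact h
  have h6 : FreeGroup.norm (g * x) ≤ FreeGroup.norm g + FreeGroup.norm x :=
    FreeGroup.norm_mul_le g x
  have h7 : FreeGroup.norm (g * y) ≤ FreeGroup.norm g + FreeGroup.norm y :=
    FreeGroup.norm_mul_le g y
  rw [h3] at h2
  omega

end free

end Pool.Agent.H219_EQ
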