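import Pool.Agent.H219_EQ.Defs

/-!
# Homomorphisms with small cancellation between the images of the letters
-/

set_option autoImplicit false

namespace Pool.Agent.H219_EQ

open FreeGroup hiding norm map_mul map_inv map_one

section core
variable {α : Type}

/-- For the letter `x` the image is `l x ++ m x ++ r x`; the part `m x` survives in every reduced
word. -/
structure Tab (α : Type) where
  l : α × Bool → List (α × Bool)
  m : α × Bool → List (α × Bool)
  r : α × Bool → List (α × Bool)

variable [DecidableEq α] (T : Tab α)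

/-- what remains between the middle parts -/
def Tab.s (x y : α × Bool) : List (α × Bool) := reduce (T.r x ++ T.l y)

/-- the image without the first left part -/
def Tab.body : List (α × Bool) → List (α × Bool)
  | [] => []
  | [x] => T.m x ++ T.r x
  | x :: y :: L => T.m x ++ T.s x y ++ Tab.body (y :: L)

/-- the reduced image -/
def Tab.full : List (α × Bool) → List (α × Bool)
  | [] => []
  | x :: L => T.l x ++ T.body (x :: L)

/-- the local conditions -/
structure Tab.Good : Prop where
  ne : ∀ x, T.m x ≠ []
  lm : ∀ x, IsReduced (T.l x ++ T.m x)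
  mr : ∀ x, IsReduced (T.m x ++ T.r x)
  ms : ∀ x y : α × Bool, (x.1 = y.1 → x.2 = y.2) → IsReduced (T.m x ++ T.s x y ++ T.m y)

variable {T}

theorem Tab.body_start (x : α × Bool) (L : List (α × Bool)) :
    ∃ R, T.body (x :: L) = T.m x ++ R := by
  cases L with
  | nil => exact ⟨T.r x, rfl⟩
  | cons y L => exact ⟨T.s x y ++ T.body (y :: L), by simp [Tab.body]⟩

theorem Tab.body_red (hT : T.Good) : ∀ L : List (α × Bool), IsReduced L → IsReduced (T.body L)
  | [], _ => by simp [Tab.body]
  | [x], _ => hT.mr x
  | x :: y :: L, h => by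
    rw [isReduced_cons_cons] at h
    obtain ⟨R, hR⟩ := T.body_start y L
    have h1 := Tab.body_red hT (y :: L) h.2
    have h2 := hT.ms x y h.1
    rw [hR] at h1
    have h3 := IsReduced.append_overlap h2 h1 (hT.ne y)
    change IsReduced (T.m x ++ T.s x y ++ T.body (y :: L))
    rw [hR, ← List.append_assoc]
    exact h3

theorem Tab.full_red (hT : T.Good) (L : List (α × Bool)) (h : IsReduced L) :
    IsReduced (T.full L) := by
  cases L with
  | nil => simp [Tab.full]
  | cons x L =>
    obtain ⟨R, hR⟩ := T.body_start x L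
    have h1 := Tab.body_red hT (x :: L) h
    rw [hR] at h1
    have h3 := IsReduced.append_overlap (hT.lm x) h1 (hT.ne x)
    change IsReduced (T.l x ++ T.body (x :: L))
    rw [hR, ← List.append_assoc]
    exact h3

theorem Tab.mk_body (φ : FreeGroup α →* FreeGroup α)
    (hφ : ∀ x, φ (FreeGroup.mk [x]) = FreeGroup.mk (T.l x ++ T.m x ++ T.r x)) :
    ∀ (L : List (α × Bool)) (x : α × Bool), φ (FreeGroup.mk (x :: L)) = FreeGroup.mk (T.l x) * FreeGroup.mk (T.body (x :: L)) := by
  intro L
  induction L with
  | nil =>
    intro x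
    rw [hφ x]
    simp [Tab.body]
  | cons y L ih =>
    intro x
    have e : FreeGroup.mk (x :: y :: L) = FreeGroup.mk [x] * FreeGroup.mk (y :: L) := by simp
    rw [e, map_mul, ih y, hφ x]
    change _ = FreeGroup.mk (T.l x) * FreeGroup.mk (T.m x ++ T.s x y ++ T.body (y :: L))
    have e2 : FreeGroup.mk (T.s x y) = FreeGroup.mk (T.r x) * FreeGroup.mk (T.l y) := by
      rw [Tab.s, reduce.self, mul_mk]
    simp only [← mul_mk, e2]
    group

theorem Tab.toWord_eq (hT : T.Good) (φ : FreeGroup α →* FreeGroup α)
    (hφ : ∀ x, φ (FreeGroup.mk [x]) = FreeGroup.mk (T.l x ++ T.m x ++ T.r x)) (x : FreeGroup α) :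
    (φ x).toWord = T.full x.toWord := by
  have h1 : φ x = FreeGroup.mk (T.full x.toWord) := by
    conv_lhs => rw [← mk_toWord (x := x)]
    cases x.toWord with
    | nil => simp [Tab.full, ← one_eq_mk]
    | cons a L =>
      rw [Tab.mk_body φ hφ]
      simp [Tab.full]
  rw [h1, toWord_mk_red (Tab.full_red hT _ isReduced_toWord)]

omit [DecidableEq α] in
theorem sum_map_le {γ : Type} (L : List γ) (f g : γ → ℕ) (h : ∀ a ∈ L, f a ≤ g a) :
    (L.map f).sum ≤ (L.map g).sum := by
  induction L with
  | nil => simp
  | cons a L ih =>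
    simp only [List.map_cons, List.sum_cons]
    have := h a (by simp)
    have := ih (fun b hb => h b (by simp [hb]))
    omega

theorem Tab.count_body (q : α × Bool → Bool) : ∀ L : List (α × Bool),
    (L.map (fun x => (T.m x).countP q)).sum ≤ (T.body L).countP q
  | [] => by simp
  | [x] => by simp [Tab.body, List.countP_append]
  | x :: y :: L => by
    have ih := Tab.count_body q (y :: L)
    change _ ≤ (T.m x ++ T.s x y ++ T.body (y :: L)).countP q
    rw [List.countP_append, List.countP_append, List.map_cons, List.sum_cons]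
    omega

/-- every letter contributes its middle part -/
theorem Tab.count_le (hT : T.Good) (φ : FreeGroup α →* FreeGroup α)
    (hφ : ∀ x, φ (FreeGroup.mk [x]) = FreeGroup.mk (T.l x ++ T.m x ++ T.r x)) (q : α × Bool → Bool) (x : FreeGroup α) :
    (x.toWord.map (fun a => (T.m a).countP q)).sum ≤ (φ x).toWord.countP q := by
  rw [Tab.toWord_eq hT φ hφ]
  refine le_trans (Tab.count_body q _) ?_
  cases x.toWord with
  | nil => simp [Tab.full, Tab.body]
  | cons a L =>
    change _ ≤ (T.l a ++ T.body (a :: L)).countP q
    rw [List.countP_append]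
    omega

theorem Tab.norm_le (hT : T.Good) (φ : FreeGroup α →* FreeGroup α)
    (hφ : ∀ x, φ (FreeGroup.mk [x]) = FreeGroup.mk (T.l x ++ T.m x ++ T.r x)) (x : FreeGroup α) :
    FreeGroup.norm x ≤ FreeGroup.norm (φ x) := by
  have h := Tab.count_le hT φ hφ (fun _ => true) x
  have h1 : (x.toWord.map (fun _ => 1)).sum ≤
      (x.toWord.map (fun a => (T.m a).length)).sum :=
    sum_map_le _ _ _ fun a _ => List.length_pos_iff.2 (hT.ne a)
  simp only [List.countP_true] at h
  have h2 : (x.toWord.map (fun _ => 1)).sum = x.toWord.length := by simp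
  rw [FreeGroup.norm, FreeGroup.norm]
  omega

end core

/-- letters in the words of `x` with a property -/
def wt {α : Type} [DecidableEq α] (q : α → Bool) (x : FreeGroup α) : ℕ :=
  x.toWord.countP (fun a => q a.1)

section wt
variable {α β : Type} [DecidableEq α] [DecidableEq β]

theorem wt_mul_le (q : α → Bool) (x y : FreeGroup α) : wt q (x * y) ≤ wt q x + wt q y := by
  unfold wt
  rw [← List.countP_append]
  exact (FreeGroup.toWord_mul_sublist x y).countP_le

omit [DecidableEq α] in
theorem countP_invRev (q : α → Bool) (L : List (α × Bool)) :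
    (invRev L).countP (fun a => q a.1) = L.countP (fun a => q a.1) := by
  unfold invRev
  rw [List.countP_reverse, List.countP_map]
  rfl

theorem wt_inv (q : α → Bool) (x : FreeGroup α) : wt q x⁻¹ = wt q x := by
  unfold wt
  rw [toWord_inv, countP_invRev]

/-- the number of letters of the image is bounded -/
theorem wt_hom_le (q : β → Bool) (κ : α → ℕ) (φ : FreeGroup α →* FreeGroup β)
    (h : ∀ a, wt q (φ (of a)) ≤ κ a) (x : FreeGroup α) :
    wt q (φ x) ≤ (x.toWord.map (fun a => κ a.1)).sum := by
  conv_lhs => rw [← mk_toWord (x := x)]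
  induction x.toWord with
  | nil =>
    rw [← one_eq_mk, map_one]
    simp [wt]
  | cons a L ih =>
    have e : FreeGroup.mk (a :: L) = FreeGroup.mk [a] * FreeGroup.mk L := by simp
    rw [e, map_mul, List.map_cons, List.sum_cons]
    refine le_trans (wt_mul_le _ _ _) (Nat.add_le_add ?_ ih)
    obtain ⟨a, b⟩ := a
    cases b
    · have : FreeGroup.mk [(a, false)] = (of a)⁻¹ := by simp [of, invRev]
      rw [this, map_inv, wt_inv]
      exact h a
    · exact h a

/-- two homomorphisms which agree on the letters of `x` -/
theorem hom_agree {G : Type} [Group G] (φ ψ : FreeGroup α →* G) (x : FreeGroup α)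
    (h : ∀ a ∈ x.toWord, φ (of a.1) = ψ (of a.1)) : φ x = ψ x := by
  have key : ∀ L : List (α × Bool), (∀ a ∈ L, φ (of a.1) = ψ (of a.1)) → φ (FreeGroup.mk L) = ψ (FreeGroup.mk L) := by
    intro L
    induction L with
    | nil =>
      intro _
      rw [← one_eq_mk, map_one, map_one]
    | cons a L ih =>
      intro h
      have e : FreeGroup.mk (a :: L) = FreeGroup.mk [a] * FreeGroup.mk L := by simp
      rw [e, map_mul, map_mul, ih (fun b hb => h b (by simp [hb]))]
      congr 1
      have ha := h a (by simp)
      obtain ⟨a, b⟩ := a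
      cases b
      · have : FreeGroup.mk [(a, false)] = (of a)⁻¹ := by simp [of, invRev]
        rw [this, map_inv, map_inv]
        exact congrArg _ ha
      · exact ha
  rw [← mk_toWord (x := x)]
  exact key _ h

theorem wt_zero (q : α → Bool) (x : FreeGroup α) (h : wt q x = 0) : ∀ a ∈ x.toWord, q a.1 = false := by
  intro a ha
  unfold wt at h
  rw [List.countP_eq_zero] at h
  simpa using h a ha

end wt

end Pool.Agent.H219_EQ
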