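import Pool.Agent.H219_EQ.B

/-!
# The two families of endomorphisms of the free group of rank five
-/

set_option autoImplicit false

namespace Pool.Agent.H219_EQ

open FreeGroup hiding norm map_mul map_inv map_one

/-- the free group of rank five -/
abbrev F5 : Type := FreeGroup (Fin 5)

/-- the table built from the images of the positive letters -/
def mkTab (l m r : Fin 5 → List (Fin 5 × Bool)) : Tab (Fin 5) where
  l x := if x.2 then l x.1 else invRev (r x.1)
  m x := if x.2 then m x.1 else invRev (m x.1)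
  r x := if x.2 then r x.1 else invRev (l x.1)

/-- the homomorphism of a table -/
def mkHom (l m r : Fin 5 → List (Fin 5 × Bool)) : F5 →* F5 :=
  FreeGroup.lift (fun i => FreeGroup.mk (l i ++ m i ++ r i))

theorem mkHom_of (l m r : Fin 5 → List (Fin 5 × Bool)) (i : Fin 5) :
    mkHom l m r (of i) = FreeGroup.mk (l i ++ m i ++ r i) := by
  simp [mkHom]

theorem mkHom_mk (l m r : Fin 5 → List (Fin 5 × Bool)) (x : Fin 5 × Bool) :
    mkHom l m r (FreeGroup.mk [x]) =
      FreeGroup.mk ((mkTab l m r).l x ++ (mkTab l m r).m x ++ (mkTab l m r).r x) := by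
  obtain ⟨i, b⟩ := x
  cases b
  · have h : FreeGroup.mk [(i, false)] = (of i)⁻¹ := by simp [of, invRev]
    rw [h, map_inv, mkHom_of, inv_mk]
    congr 1
    simp [mkTab, invRev]
  · exact mkHom_of l m r i

def gl : Fin 5 → List (Fin 5 × Bool) := ![[(1, true)], [(1, true)], [], [], []]
def gm : Fin 5 → List (Fin 5 × Bool) :=
  ![[(0, true), (0, true), (0, true)], [(1, true), (1, true)], [(0, true)], [(3, true)], [(4, true)]]
def gr : Fin 5 → List (Fin 5 × Bool) := ![[(1, true)], [(1, true)], [], [], []]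

def hl : Fin 5 → List (Fin 5 × Bool) := ![[], [], [(3, true)], [(3, true)], []]
def hm : Fin 5 → List (Fin 5 × Bool) :=
  ![[(0, true)], [(1, true)], [(4, true), (3, true)], [(3, true), (3, true)], [(4, true), (4, true)]]
def hr : Fin 5 → List (Fin 5 × Bool) := ![[], [], [(4, true)], [], [(4, true)]]

/-- the first endomorphism -/
def g5 : F5 →* F5 := mkHom gl gm gr

/-- the first factor of the second endomorphism -/
def h51 : F5 →* F5 := mkHom hl hm hr

theorem good_g : (mkTab gl gm gr).Good where
  ne := by decide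
  lm := by simp only [isReduced_iff_reduce_eq]; decide
  mr := by simp only [isReduced_iff_reduce_eq]; decide
  ms := by simp only [isReduced_iff_reduce_eq]; decide +kernel

theorem good_h : (mkTab hl hm hr).Good where
  ne := by decide
  lm := by simp only [isReduced_iff_reduce_eq]; decide
  mr := by simp only [isReduced_iff_reduce_eq]; decide
  ms := by simp only [isReduced_iff_reduce_eq]; decide +kernel

/-- the letters `c, d, e` -/
def q1 (i : Fin 5) : Bool := decide (2 ≤ i.val)

/-- the letters `d, e` -/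
def q2 (i : Fin 5) : Bool := decide (3 ≤ i.val)

theorem sum_ind (q : Fin 5 → Bool) (L : List (Fin 5 × Bool)) :
    (L.map (fun a => if q a.1 then 1 else 0)).sum = L.countP (fun a => q a.1) := by
  induction L with
  | nil => simp
  | cons a L ih =>
    rw [List.map_cons, List.sum_cons, ih, List.countP_cons]
    omega

theorem wt_true (x : F5) : wt (fun _ => true) x = FreeGroup.norm x := by
  simp [wt, FreeGroup.norm]

theorem wt_of (q : Fin 5 → Bool) (i : Fin 5) : wt q (of i) = if q i then 1 else 0 := by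
  simp [wt, toWord_of, List.countP_cons]

/-- words in the letters `t, b` -/
def TB (x : F5) : Prop := wt q1 x = 0

theorem TB_letters {x : F5} (h : TB x) : ∀ a ∈ x.toWord, a.1 = 0 ∨ a.1 = 1 := by
  intro a ha
  have h1 := wt_zero q1 x h a ha
  revert h1
  generalize a.1 = i
  revert i
  decide

theorem TB_one : TB 1 := by simp [TB, wt]

theorem TB_mul {x y : F5} (hx : TB x) (hy : TB y) : TB (x * y) := by
  have := wt_mul_le q1 x y
  unfold TB at *
  omega

theorem TB_inv {x : F5} (hx : TB x) : TB x⁻¹ := by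
  unfold TB at *
  rw [wt_inv]
  exact hx

theorem wt_g (x : F5) : wt q1 (g5 x) ≤ wt q1 x := by
  refine le_trans (wt_hom_le q1 (fun i => if q1 i then 1 else 0) g5 ?_ x) ?_
  · unfold g5
    simp only [mkHom_of]
    unfold wt
    simp only [toWord_mk]
    decide
  · exact (sum_ind q1 x.toWord).le

theorem wt_g2 (x : F5) : wt q2 (g5 x) ≤ wt q1 x := by
  refine le_trans (wt_hom_le q2 (fun i => if q1 i then 1 else 0) g5 ?_ x) ?_
  · unfold g5
    simp only [mkHom_of]
    unfold wt
    simp only [toWord_mk]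
    decide
  · exact (sum_ind q1 x.toWord).le

/-- the second factor -/
def aV (V : F5) : F5 →* F5 := FreeGroup.lift (fun i => if i = 2 then V * of 2 else of i)

theorem aV_of (V : F5) (i : Fin 5) : aV V (of i) = if i = 2 then V * of 2 else of i := by
  simp [aV]

theorem aV_TB (V : F5) {x : F5} (hx : TB x) : aV V x = x := by
  have h := hom_agree (aV V) (MonoidHom.id F5) x (fun a ha => by
    rcases TB_letters hx a ha with h | h <;> rw [h, aV_of] <;> rfl)
  exact h

theorem aV_inv (V : F5) (hV : TB V) (x : F5) : aV V⁻¹ (aV V x) = x := by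
  have h : (aV V⁻¹).comp (aV V) = MonoidHom.id F5 := by
    ext i
    change aV V⁻¹ (aV V (of i)) = of i
    rw [aV_of]
    split_ifs with hi
    · rw [map_mul, aV_TB _ hV, aV_of, if_pos rfl, mul_inv_cancel_left, hi]
    · rw [aV_of, if_neg hi]
  exact DFunLike.congr_fun h x

theorem wt_aV_le (V : F5) (hV : TB V) (x : F5) : wt q1 (aV V x) ≤ wt q1 x := by
  refine le_trans (wt_hom_le q1 (fun i => if q1 i then 1 else 0) (aV V) ?_ x) ?_
  · intro i
    rw [aV_of]
    split_ifs with hi h2 h2
    · refine le_trans (wt_mul_le _ _ _) ?_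
      have h3 : wt q1 V = 0 := hV
      rw [h3, wt_of]
      decide
    · rw [hi] at h2
      exact absurd (by decide : q1 2 = true) h2
    · rw [wt_of, if_pos h2]
    · rw [wt_of, if_neg h2]
  · exact (sum_ind q1 x.toWord).le

theorem wt_aV_ge (V : F5) (hV : TB V) (x : F5) : wt q1 x ≤ wt q1 (aV V x) := by
  have h := wt_aV_le V⁻¹ (TB_inv hV) (aV V x)
  rw [aV_inv V hV] at h
  exact h

theorem norm_aV (V : F5) (hV : TB V) (x : F5) :
    FreeGroup.norm x ≤ (FreeGroup.norm V + 1) * FreeGroup.norm (aV V x) := by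
  have h := wt_hom_le (fun _ => true) (fun _ : Fin 5 => FreeGroup.norm V + 1) (aV V⁻¹) (fun i => by
    rw [aV_of, wt_true]
    split_ifs with hi
    · refine le_trans (FreeGroup.norm_mul_le _ _) ?_
      rw [FreeGroup.norm_inv_eq, FreeGroup.norm_of]
    · rw [FreeGroup.norm_of]
      omega) (aV V x)
  rw [aV_inv V hV, wt_true] at h
  simpa [FreeGroup.norm, mul_comm] using h

/-- the second endomorphism -/
def h5 (V : F5) : F5 →* F5 := h51.comp (aV V)

theorem wt_h51 (x : F5) : 2 * wt q1 x ≤ wt q2 (h51 x) := by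
  refine le_trans ?_ (Tab.count_le good_h h51 (mkHom_mk _ _ _) (fun a => q2 a.1) x)
  unfold wt
  rw [← sum_ind, ← List.sum_map_mul_left]
  have key : ∀ a : Fin 5 × Bool, (2 * if q1 a.1 then 1 else 0) ≤
      ((mkTab hl hm hr).m a).countP (fun a => q2 a.1) := by decide
  exact sum_map_le _ _ _ fun a _ => key a

theorem h51_TB {x : F5} (hx : TB x) : h51 x = x := by
  have h := hom_agree h51 (MonoidHom.id F5) x (fun a ha => by
    rcases TB_letters hx a ha with h | h <;> rw [h] <;> unfold h51 <;> rw [mkHom_of] <;> rfl)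
  exact h

theorem h5_TB (V : F5) {x : F5} (hx : TB x) : h5 V x = x := by
  change h51 (aV V x) = x
  rw [aV_TB V hx, h51_TB hx]

theorem norm_g_TB {x : F5} (hx : TB x) : 2 * FreeGroup.norm x ≤ FreeGroup.norm (g5 x) := by
  have h := Tab.count_le good_g g5 (mkHom_mk _ _ _) (fun _ => true) x
  have h2 : (x.toWord.map (fun _ => 2)).sum ≤
      (x.toWord.map (fun a => ((mkTab gl gm gr).m a).countP (fun _ => true))).sum := by
    refine sum_map_le _ _ _ fun a ha => ?_
    obtain ⟨i, b⟩ := a
    rcases TB_letters hx _ ha with h | h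
    · change i = 0 at h
      subst h
      cases b <;> decide
    · change i = 1 at h
      subst h
      cases b <;> decide
  have h3 := h2.trans h
  simpa [FreeGroup.norm, mul_comm] using h3

/-- the equalizer is trivial -/
theorem eq_trivial (V : F5) (hV : TB V) (x : F5) (h : g5 x = h5 V x) : x = 1 := by
  have h1 := wt_aV_ge V hV x
  have h2 := wt_h51 (aV V x)
  have h3 := wt_g2 x
  have h4 : g5 x = h51 (aV V x) := h
  rw [← h4] at h2
  have h5' : TB x := by
    unfold TB
    omega
  have h6 := norm_g_TB h5'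
  rw [h, h5_TB V h5'] at h6
  rw [← FreeGroup.norm_eq_zero]
  omega

theorem norm_g (x : F5) : FreeGroup.norm x ≤ FreeGroup.norm (g5 x) :=
  Tab.norm_le good_g g5 (mkHom_mk _ _ _) x

theorem norm_h (V : F5) (hV : TB V) (x : F5) :
    FreeGroup.norm x ≤ (FreeGroup.norm V + 1) * FreeGroup.norm (h5 V x) :=
  (norm_aV V hV x).trans (Nat.mul_le_mul_left _ (Tab.norm_le good_h h51 (mkHom_mk _ _ _) _))

theorem inj_of_norm (φ : F5 →* F5) (M : ℕ) (h : ∀ x, FreeGroup.norm x ≤ M * FreeGroup.norm (φ x)) :
    Function.Injective φ := by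
  rw [injective_iff_map_eq_one]
  intro x hx
  have := h x
  rw [hx, FreeGroup.norm_one, mul_zero] at this
  rw [← FreeGroup.norm_eq_zero]
  omega

theorem inj_g : Function.Injective g5 := inj_of_norm g5 1 (fun x => by rw [one_mul]; exact norm_g x)

theorem inj_h (V : F5) (hV : TB V) : Function.Injective (h5 V) :=
  inj_of_norm (h5 V) _ (norm_h V hV)

/-- a linear lower bound gives uniform continuity -/
theorem uc_hom (φ : Fm 5 →* Fm 5) (M : ℕ)
    (h : ∀ x : F5, FreeGroup.norm x ≤ M * FreeGroup.norm (α := Fin 5) (φ x)) : UniformContinuous φ := by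
  refine uc_of φ fun R => ?_
  obtain ⟨M', hM'⟩ : ∃ M' : ℕ, ∀ a : Fin 5, FreeGroup.norm (α := Fin 5) (φ (of a)) ≤ M' :=
    ⟨Finset.univ.sup (fun a : Fin 5 => FreeGroup.norm (α := Fin 5) (φ (of a))), fun a =>
      Finset.le_sup (f := fun a : Fin 5 => FreeGroup.norm (α := Fin 5) (φ (of a))) (Finset.mem_univ a)⟩
  obtain ⟨K, hK⟩ := cp_large (α := Fin 5) (β := Fin 5) φ (M + M')
    (fun a => (hM' a).trans (Nat.le_add_left _ _))
    (fun x => (h x).trans (Nat.mul_le_mul_right _ (Nat.le_add_right _ _))) R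
  exact ⟨K, fun x y hxy => hK x y hxy⟩

/-- the sequence of words in `t, b` -/
def W : ℕ → F5
  | 0 => 1
  | j + 1 => W j * (g5 (W j))⁻¹ * of 0

theorem W_succ (j : ℕ) : W (j + 1) = W j * (g5 (W j))⁻¹ * of 0 := rfl

theorem TB_W : ∀ j, TB (W j)
  | 0 => TB_one
  | j + 1 => by
    have h := TB_W j
    have h2 : TB (g5 (W j)) := by
      have := wt_g (W j)
      unfold TB at *
      omega
    have h3 : TB (of 0) := by
      unfold TB
      rw [wt_of]
      decide
    exact TB_mul (TB_mul h (TB_inv h2)) h3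

/-- the exponent of `t` -/
def tau : F5 →* Multiplicative ℤ := FreeGroup.lift (fun i => if i = 0 then Multiplicative.ofAdd 1 else 1)

theorem tau_g {x : F5} (hx : TB x) : tau (g5 x) = tau x ^ 3 := by
  have h := hom_agree (tau.comp g5) ((powMonoidHom 3).comp tau) x (fun a ha => by
    rcases TB_letters hx a ha with h | h <;> rw [h]
    · decide
    · decide)
  exact h

theorem tau_W : ∀ j, 3 * Multiplicative.toAdd (tau (W j)) = 1 - (-2) ^ j
  | 0 => by
    change 3 * Multiplicative.toAdd (tau 1) = 1 - (-2) ^ 0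
    rw [map_one]
    simp
  | j + 1 => by
    have h := tau_W j
    have h2 : tau (of 0) = Multiplicative.ofAdd 1 := by simp [tau]
    have h3 : tau (W (j + 1)) = tau (W j) * (tau (W j) ^ 3)⁻¹ * Multiplicative.ofAdd 1 := by
      rw [W_succ, map_mul, map_mul, map_inv, tau_g (TB_W j), h2]
    rw [h3, toAdd_mul, toAdd_mul, toAdd_inv, toAdd_pow, toAdd_ofAdd, pow_succ]
    simp only [nsmul_eq_mul]
    push_cast
    linarith

theorem W_inj {j k : ℕ} (h : W j = W k) : j = k := by
  have h1 := tau_W j
  have h2 := tau_W k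
  rw [h] at h1
  have h3 : (-2 : ℤ) ^ j = (-2) ^ k := by linarith
  have h4 := congrArg Int.natAbs h3
  rw [Int.natAbs_pow, Int.natAbs_pow] at h4
  exact Nat.pow_right_injective (le_refl 2) h4

end Pool.Agent.H219_EQ
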