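import Pool.Agent.H219_EQ.C

/-!
# The points at infinity where the two endomorphisms agree
-/

set_option autoImplicit false

namespace Pool.Agent.H219_EQ

open FreeGroup hiding norm map_mul map_inv map_one

/-- the symbols -/
inductive Sym : Type
  | P (j : ℕ)
  | D
  | E

/-- the substitution -/
def sg (N : ℕ) : Sym → List Sym
  | Sym.P j => (List.range' j (N + 1 - j)).map Sym.P ++ [Sym.D, Sym.E, Sym.D, Sym.E]
  | Sym.D => [Sym.D, Sym.D, Sym.D]
  | Sym.E => [Sym.E, Sym.E, Sym.E]

/-- the words of the symbols -/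
def io : Sym → List (Fin 5 × Bool)
  | Sym.P j => invRev (W j).toWord ++ [(2, true)]
  | Sym.D => [(3, true)]
  | Sym.E => [(4, true)]

/-- the word of a list of symbols -/
def ios (S : List Sym) : List (Fin 5 × Bool) := S.flatMap io

/-- the substitution applied to a list -/
def sgs (N : ℕ) (S : List Sym) : List Sym := S.flatMap (sg N)

/-- letters which may come first -/
def fst5 (a : Fin 5 × Bool) : Prop := a.2 = true ∨ a.1 = 0 ∨ a.1 = 1

/-- letters which may come last -/
def lst5 (a : Fin 5 × Bool) : Prop := a.2 = true ∧ 2 ≤ a.1.val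

theorem compat {a b : Fin 5 × Bool} (ha : lst5 a) (hb : fst5 b) : a.1 = b.1 → a.2 = b.2 := by
  intro h
  obtain ⟨h1, h2⟩ := ha
  rcases hb with h3 | h3 | h3
  · rw [h1, h3]
  · rw [h, h3] at h2
    exact absurd h2 (by decide)
  · rw [h, h3] at h2
    exact absurd h2 (by decide)

theorem mem_invRev_TB {x : F5} (hx : TB x) : ∀ a ∈ invRev x.toWord, a.1 = 0 ∨ a.1 = 1 := by
  intro a ha
  rw [← toWord_inv] at ha
  exact TB_letters (TB_inv hx) a ha

theorem io_red (s : Sym) : IsReduced (io s) := by
  cases s with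
  | P j =>
    change IsReduced (invRev (W j).toWord ++ [(2, true)])
    unfold FreeGroup.IsReduced
    rw [List.isChain_append]
    refine ⟨IsReduced_invRev isReduced_toWord, by simp, ?_⟩
    intro a ha b hb
    have h1 := mem_invRev_TB (TB_W j) a (List.mem_of_mem_getLast? ha)
    simp at hb
    subst hb
    intro h
    rcases h1 with h1 | h1 <;> rw [h1] at h <;> exact absurd h (by decide)
  | D => exact IsReduced.singleton
  | E => exact IsReduced.singleton

theorem io_last (s : Sym) : ∀ a ∈ (io s).getLast?, lst5 a := by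
  cases s with
  | P j =>
    intro a ha
    simp [io] at ha
    subst ha
    exact ⟨rfl, by decide⟩
  | D =>
    intro a ha
    simp [io] at ha
    subst ha
    exact ⟨rfl, by decide⟩
  | E =>
    intro a ha
    simp [io] at ha
    subst ha
    exact ⟨rfl, by decide⟩

theorem io_ne (s : Sym) : io s ≠ [] := by
  cases s <;> simp [io]

theorem io_first (s : Sym) : ∀ a ∈ (io s).head?, fst5 a := by
  cases s with
  | P j =>
    intro a ha
    have h1 : a ∈ io (Sym.P j) := List.mem_of_mem_head? ha
    change a ∈ invRev (W j).toWord ++ [(2, true)] at h1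
    rw [List.mem_append] at h1
    rcases h1 with h1 | h1
    · exact Or.inr (mem_invRev_TB (TB_W j) a h1)
    · simp at h1
      subst h1
      exact Or.inl rfl
  | D =>
    intro a ha
    simp [io] at ha
    subst ha
    exact Or.inl rfl
  | E =>
    intro a ha
    simp [io] at ha
    subst ha
    exact Or.inl rfl

theorem ios_cons (s : Sym) (S : List Sym) : ios (s :: S) = io s ++ ios S := by
  simp [ios]

theorem ios_append (S S' : List Sym) : ios (S ++ S') = ios S ++ ios S' := by
  simp [ios]

theorem ios_first (S : List Sym) : ∀ a ∈ (ios S).head?, fst5 a := by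
  cases S with
  | nil => simp [ios]
  | cons s S =>
    rw [ios_cons, List.head?_append_of_ne_nil _ (io_ne s)]
    exact io_first s

theorem ios_red (S : List Sym) : IsReduced (ios S) := by
  induction S with
  | nil => simp [ios]
  | cons s S ih =>
    rw [ios_cons]
    unfold FreeGroup.IsReduced
    rw [List.isChain_append]
    exact ⟨io_red s, ih, fun a ha b hb => compat (io_last s a ha) (ios_first S b hb)⟩

theorem ios_length (S : List Sym) : S.length ≤ (ios S).length := by
  induction S with
  | nil => simp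
  | cons s S ih =>
    rw [ios_cons, List.length_append, List.length_cons]
    have := List.length_pos_iff.2 (io_ne s)
    omega

theorem sgs_append (N : ℕ) (S S' : List Sym) : sgs N (S ++ S') = sgs N S ++ sgs N S' := by
  simp [sgs]

/-- the element of a list of symbols -/
def el (S : List Sym) : F5 := FreeGroup.mk (ios S)

theorem el_toWord (S : List Sym) : (el S).toWord = ios S := toWord_mk_red (ios_red S)

theorem el_append (S S' : List Sym) : el (S ++ S') = el S * el S' := by
  unfold el
  rw [ios_append, mul_mk]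

theorem el_cons (s : Sym) (S : List Sym) : el (s :: S) = el [s] * el S := by
  rw [← el_append]
  rfl

theorem el_nil : el [] = 1 := rfl

theorem el_P (j : ℕ) : el [Sym.P j] = (W j)⁻¹ * of 2 := by
  unfold el
  have : ios [Sym.P j] = invRev (W j).toWord ++ [(2, true)] := by simp [ios, io]
  rw [this, ← mul_mk, ← inv_mk, mk_toWord]
  rfl

theorem el_D : el [Sym.D] = of 3 := rfl
theorem el_E : el [Sym.E] = of 4 := rfl

theorem g_P (j : ℕ) : g5 (el [Sym.P j]) = (W j)⁻¹ * W (j + 1) := by
  rw [el_P, map_mul, map_inv, W_succ]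
  have : g5 (of 2) = of 0 := by
    unfold g5
    rw [mkHom_of]
    rfl
  rw [this]
  group

theorem g_range (j n : ℕ) : g5 (el ((List.range' j n).map Sym.P)) = (W j)⁻¹ * W (j + n) := by
  induction n generalizing j with
  | zero => simp [el_nil]
  | succ n ih =>
    rw [List.range'_succ, List.map_cons, el_cons, map_mul, g_P, ih (j + 1)]
    have : j + 1 + n = j + (n + 1) := by ring
    rw [this]
    group

theorem g_D : g5 (of 3) = of 3 := by
  unfold g5
  rw [mkHom_of]
  rfl

theorem g_E : g5 (of 4) = of 4 := by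
  unfold g5
  rw [mkHom_of]
  rfl

theorem h_D (V : F5) : h5 V (of 3) = of 3 * of 3 * of 3 := by
  change h51 (aV V (of 3)) = _
  rw [aV_of, if_neg (by decide)]
  unfold h51
  rw [mkHom_of]
  rfl

theorem h_E (V : F5) : h5 V (of 4) = of 4 * of 4 * of 4 := by
  change h51 (aV V (of 4)) = _
  rw [aV_of, if_neg (by decide)]
  unfold h51
  rw [mkHom_of]
  rfl

theorem h_C (V : F5) (hV : TB V) : h5 V (of 2) = V * (of 3 * of 4 * of 3 * of 4) := by
  change h51 (aV V (of 2)) = _
  rw [aV_of, if_pos rfl, map_mul, h51_TB hV]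
  congr 1

/-- the key identity for one symbol -/
theorem key_sym (N : ℕ) (s : Sym) (hs : ∀ j, s = Sym.P j → j ≤ N) :
    h5 (W (N + 1)) (el [s]) = g5 (el (sg N s)) := by
  cases s with
  | P j =>
    have hj := hs j rfl
    change _ = g5 (el ((List.range' j (N + 1 - j)).map Sym.P ++ [Sym.D, Sym.E, Sym.D, Sym.E]))
    rw [el_append, map_mul, g_range, el_P, map_mul, map_inv, h5_TB _ (TB_W j), h_C _ (TB_W _)]
    have e1 : j + (N + 1 - j) = N + 1 := by omega
    have e2 : g5 (el [Sym.D, Sym.E, Sym.D, Sym.E]) = of 3 * of 4 * of 3 * of 4 := by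
      have e : el [Sym.D, Sym.E, Sym.D, Sym.E] = of 3 * of 4 * of 3 * of 4 := rfl
      rw [e, map_mul, map_mul, map_mul, g_D, g_E]
    rw [e1, e2]
    group
  | D =>
    change _ = g5 (el [Sym.D, Sym.D, Sym.D])
    have e : el [Sym.D, Sym.D, Sym.D] = of 3 * of 3 * of 3 := rfl
    rw [e, el_D, h_D, map_mul, map_mul, g_D]
  | E =>
    change _ = g5 (el [Sym.E, Sym.E, Sym.E])
    have e : el [Sym.E, Sym.E, Sym.E] = of 4 * of 4 * of 4 := rfl
    rw [e, el_E, h_E, map_mul, map_mul, g_E]

theorem key_list (N : ℕ) (S : List Sym) (hS : ∀ j, Sym.P j ∈ S → j ≤ N) :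
    h5 (W (N + 1)) (el S) = g5 (el (sgs N S)) := by
  induction S with
  | nil => simp [sgs, el_nil]
  | cons s S ih =>
    have h1 := key_sym N s (fun j hj => hS j (by rw [hj]; simp))
    have h2 := ih (fun j hj => hS j (by simp [hj]))
    have h3 : sgs N (s :: S) = sg N s ++ sgs N S := by simp [sgs]
    rw [el_cons, map_mul, h1, h2, h3, el_append, map_mul]

theorem sgs_le (N : ℕ) (S : List Sym) :
    ∀ j, Sym.P j ∈ sgs N S → j ≤ N := by
  intro j hj
  unfold sgs at hj
  rw [List.mem_flatMap] at hj
  obtain ⟨s, hs, hj⟩ := hj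
  cases s with
  | P k =>
    simp only [sg, List.mem_append, List.mem_map, List.mem_range'] at hj
    rcases hj with ⟨a, ⟨i, hi, rfl⟩, ha⟩ | hj
    · injection ha with ha
      omega
    · simp at hj
  | D => simp [sg] at hj
  | E => simp [sg] at hj

/-- the iterated substitution -/
def it (N j : ℕ) : ℕ → List Sym
  | 0 => [Sym.P j]
  | i + 1 => sgs N (it N j i)

theorem it_le (N j : ℕ) (hj : j ≤ N) : ∀ i, ∀ k, Sym.P k ∈ it N j i → k ≤ N
  | 0 => by
    intro k hk
    simp [it] at hk
    omega
  | i + 1 => sgs_le N _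

theorem it_succ (N j : ℕ) (hj : j ≤ N) : ∀ i, ∃ R, R ≠ [] ∧ it N j (i + 1) = it N j i ++ R
  | 0 => by
    obtain ⟨m, hm⟩ : ∃ m, N + 1 - j = m + 1 := ⟨N - j, by omega⟩
    refine ⟨(List.range' (j + 1) m).map Sym.P ++ [Sym.D, Sym.E, Sym.D, Sym.E], by simp, ?_⟩
    simp [it, sgs, sg, hm, List.range'_succ]
  | i + 1 => by
    obtain ⟨R, hR, h⟩ := it_succ N j hj i
    refine ⟨sgs N R, ?_, ?_⟩
    · cases R with
      | nil => exact absurd rfl hR
      | cons s R =>
        cases s <;> simp [sgs, sg]
    · have e : sgs N (it N j (i + 1)) = sgs N (it N j i) ++ sgs N R := by rw [h, sgs_append]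
      exact e

theorem it_add (N j : ℕ) (hj : j ≤ N) (i k : ℕ) : ∃ R, it N j (i + k) = it N j i ++ R := by
  induction k with
  | zero => exact ⟨[], by simp⟩
  | succ k ih =>
    obtain ⟨R, hR⟩ := ih
    obtain ⟨R', -, hR'⟩ := it_succ N j hj (i + k)
    exact ⟨R ++ R', by rw [← add_assoc, hR', hR, List.append_assoc]⟩

theorem it_length (N j : ℕ) (hj : j ≤ N) (i : ℕ) : i + 1 ≤ (it N j i).length := by
  induction i with
  | zero => simp [it]
  | succ i ih =>
    obtain ⟨R, hR, h⟩ := it_succ N j hj i
    rw [h, List.length_append]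
    have := List.length_pos_iff.2 hR
    omega

/-- the approximations -/
def xs (N j i : ℕ) : Fm 5 := el (it N j i)

theorem xs_word (N j i : ℕ) : FreeGroup.toWord (xs N j i : F5) = ios (it N j i) := el_toWord _

theorem cp_xs (N j : ℕ) (hj : j ≤ N) (i k : ℕ) (hik : i ≤ k) : i ≤ cp (xs N j i) (xs N j k) := by
  obtain ⟨m, rfl⟩ := Nat.exists_eq_add_of_le hik
  obtain ⟨R, hR⟩ := it_add N j hj i m
  have h : cp (xs N j i) (xs N j (i + m)) = (ios (it N j i)).length := by
    unfold cp
    rw [xs_word, xs_word, hR, ios_append]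
    have := lcpl_append (ios (it N j i)) [] (ios R)
    rw [List.append_nil, lcpl_nil_left, add_zero] at this
    exact this
  rw [h]
  have h1 := ios_length (it N j i)
  have h2 := it_length N j hj i
  omega

theorem h_xs (N j : ℕ) (hj : j ≤ N) (i : ℕ) :
    h5 (W (N + 1)) (xs N j i : F5) = g5 (xs N j (i + 1) : F5) :=
  key_list N _ (it_le N j hj i)

end Pool.Agent.H219_EQ
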