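import Pool.Agent.H219_EQ.A

/-!
# The metric of the free group, its completion, regular points
-/

set_option autoImplicit false

namespace Pool.Agent.H219_EQ

open UniformSpace

/-- the free group of rank `n` -/
def Fm (n : ℕ) : Type := FreeGroup (Fin n)

instance (n : ℕ) : Group (Fm n) := inferInstanceAs (Group (FreeGroup (Fin n)))

instance (n : ℕ) : DecidableEq (Fm n) := inferInstanceAs (DecidableEq (FreeGroup (Fin n)))

/-- the length of the longest common initial part of the reduced words of `u` and `v` -/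
def cp {n : ℕ} (u v : Fm n) : ℕ := lcpl (FreeGroup.toWord u) (FreeGroup.toWord v)

theorem cp_comm {n : ℕ} (u v : Fm n) : cp u v = cp v u := lcpl_comm _ _

/-- the metric `2 ^ (- length of the longest common initial part)` -/
noncomputable instance (n : ℕ) : MetricSpace (Fm n) where
  dist u v := if u = v then 0 else (1 / 2 : ℝ) ^ cp u v
  dist_self u := if_pos rfl
  dist_comm u v := by
    by_cases h : u = v
    · rw [if_pos h, if_pos h.symm]
    · rw [if_neg h, if_neg (fun h' => h h'.symm), cp_comm]
  dist_triangle u v w := by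
    by_cases h1 : u = v
    · rw [if_pos h1, h1, zero_add]
    by_cases h2 : v = w
    · rw [if_pos h2, h2, add_zero]
    rw [if_neg h1, if_neg h2]
    by_cases h3 : u = w
    · rw [if_pos h3]
      positivity
    rw [if_neg h3]
    have h4 : min (cp u v) (cp v w) ≤ cp u w := lcpl_ultra _ _ _
    rcases min_le_iff.1 h4 with h | h
    · have := pow_le_pow_of_le_one (by norm_num : (0 : ℝ) ≤ 1 / 2) (by norm_num) h
      have h5 : (0 : ℝ) < (1 / 2) ^ cp v w := by positivity
      linarith
    · have := pow_le_pow_of_le_one (by norm_num : (0 : ℝ) ≤ 1 / 2) (by norm_num) h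
      have h5 : (0 : ℝ) < (1 / 2) ^ cp u v := by positivity
      linarith
  eq_of_dist_eq_zero {u v} h := by
    by_contra hne
    rw [if_neg hne] at h
    have h5 : (0 : ℝ) < (1 / 2) ^ cp u v := by positivity
    exact h5.ne' h

theorem dist_def {n : ℕ} (u v : Fm n) : dist u v = if u = v then 0 else (1 / 2 : ℝ) ^ cp u v := rfl

theorem dist_of_ne {n : ℕ} {u v : Fm n} (h : u ≠ v) : dist u v = (1 / 2 : ℝ) ^ cp u v := by
  rw [dist_def, if_neg h]

/-- the completion of the free group -/
abbrev Fh (n : ℕ) : Type := Completion (Fm n)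

/-- `φ'` is the continuous extension of the endomorphism `φ` to the completion -/
def IsExt {n : ℕ} (φ : Fm n →* Fm n) (φ' : Fh n → Fh n) : Prop :=
  Continuous φ' ∧ ∀ x : Fm n, φ' (x : Fh n) = (φ x : Fh n)

/-- left multiplication by an element of the free group on the completion -/
noncomputable def lmul {n : ℕ} (x : Fm n) : Fh n → Fh n := Completion.map (fun y => x * y)

/-- the regular points of the equalizer of `φ'` and `ψ'`: those which are not in the closure of the
equalizer of `φ` and `ψ` -/
def Reg {n : ℕ} (φ ψ : Fm n →* Fm n) (φ' ψ' : Fh n → Fh n) : Set (Fh n) :=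
  {α | φ' α = ψ' α ∧ α ∉ closure ((fun x : Fm n => (x : Fh n)) '' {x | φ x = ψ x})}

theorem uc_of {n : ℕ} (f : Fm n → Fm n)
    (h : ∀ R, ∃ K, ∀ x y, K ≤ cp x y → R ≤ cp (f x) (f y)) : UniformContinuous f := by
  rw [Metric.uniformContinuous_iff]
  intro ε hε
  obtain ⟨R, hR⟩ := exists_pow_lt_of_lt_one hε (by norm_num : (1 / 2 : ℝ) < 1)
  obtain ⟨K, hK⟩ := h R
  refine ⟨(1 / 2) ^ K, by positivity, fun {x y} hxy => ?_⟩
  by_cases h1 : x = y
  · rw [h1, dist_self]
    exact hε
  rw [dist_of_ne h1] at hxy
  have h2 : K ≤ cp x y := by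
    by_contra hc
    have := pow_le_pow_of_le_one (by norm_num : (0 : ℝ) ≤ 1 / 2) (by norm_num) (by omega : cp x y ≤ K)
    linarith
  have h3 := hK x y h2
  by_cases h4 : f x = f y
  · rw [h4, dist_self]
    exact hε
  rw [dist_of_ne h4]
  exact lt_of_le_of_lt (pow_le_pow_of_le_one (by norm_num) (by norm_num) h3) hR

/-- left multiplication is uniformly continuous -/
theorem uc_mul {n : ℕ} (g : Fm n) : UniformContinuous (fun y : Fm n => g * y) := by
  refine uc_of _ fun R => ⟨R + FreeGroup.norm g, fun x y hxy => ?_⟩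
  have h : cp x y ≤ cp (g * x) (g * y) + FreeGroup.norm g := lcpl_mul (α := Fin n) g x y
  omega

theorem lmul_coe {n : ℕ} (x y : Fm n) : lmul x (y : Fh n) = ((x * y : Fm n) : Fh n) :=
  Completion.map_coe (uc_mul x) y

theorem lmul_one {n : ℕ} (α : Fh n) : lmul 1 α = α := by
  have h : (fun y : Fm n => 1 * y) = id := funext fun y => one_mul y
  unfold lmul
  rw [h, Completion.map_id]
  rfl

/-- the extension of a uniformly continuous endomorphism -/
theorem isExt_map {n : ℕ} (φ : Fm n →* Fm n) (h : UniformContinuous φ) :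
    IsExt φ (Completion.map φ) :=
  ⟨Completion.continuous_map, fun x => Completion.map_coe h x⟩

end Pool.Agent.H219_EQ
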