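import Pool.Agent.H219_EQ.D

/-!
# The limits and the count
-/

set_option autoImplicit false

namespace Pool.Agent.H219_EQ

open Filter Topology UniformSpace

theorem dist_le_of_cp {x y : Fm 5} {i : ℕ} (h : i ≤ cp x y) : dist x y ≤ (1 / 2 : ℝ) ^ i := by
  by_cases hxy : x = y
  · rw [hxy, dist_self]
    positivity
  · rw [dist_of_ne hxy]
    exact pow_le_pow_of_le_one (by norm_num) (by norm_num) h

theorem le_dist_of_cp {x y : Fm 5} {i : ℕ} (hxy : x ≠ y) (h : cp x y ≤ i) :
    (1 / 2 : ℝ) ^ i ≤ dist x y := by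
  rw [dist_of_ne hxy]
  exact pow_le_pow_of_le_one (by norm_num) (by norm_num) h

theorem cauchy_xs (N j : ℕ) (hj : j ≤ N) : CauchySeq (fun i => xs N j i) := by
  rw [Metric.cauchySeq_iff']
  intro ε hε
  obtain ⟨R, hR⟩ := exists_pow_lt_of_lt_one hε (by norm_num : (1 / 2 : ℝ) < 1)
  refine ⟨R, fun n hn => ?_⟩
  rw [dist_comm]
  exact (dist_le_of_cp (cp_xs N j hj R n hn)).trans_lt hR

theorem exists_lim (N j : ℕ) (hj : j ≤ N) :
    ∃ α : Fh 5, Tendsto (fun i => ((xs N j i : Fm 5) : Fh 5)) atTop (𝓝 α) := by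
  apply cauchySeq_tendsto_of_complete
  exact (cauchy_xs N j hj).map (Completion.uniformContinuous_coe (Fm 5))

/-- the limit point -/
noncomputable def al (N j : ℕ) : Fh 5 :=
  if hj : j ≤ N then Classical.choose (exists_lim N j hj) else (1 : Fm 5)

theorem al_lim (N j : ℕ) (hj : j ≤ N) :
    Tendsto (fun i => ((xs N j i : Fm 5) : Fh 5)) atTop (𝓝 (al N j)) := by
  unfold al
  rw [dif_pos hj]
  exact Classical.choose_spec (exists_lim N j hj)

/-- the two endomorphisms, on the type with the metric -/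
def gF : Fm 5 →* Fm 5 := g5

def hF (N : ℕ) : Fm 5 →* Fm 5 := h5 (W (N + 1))

theorem uc_g : UniformContinuous gF := by
  refine uc_hom gF 1 fun x => ?_
  rw [one_mul]
  exact norm_g x

theorem uc_h (N : ℕ) : UniformContinuous (hF N) :=
  uc_hom (hF N) _ (norm_h (W (N + 1)) (TB_W _))

theorem al_eq (N j : ℕ) (hj : j ≤ N) (g' h' : Fh 5 → Fh 5) (hg : IsExt gF g') (hh : IsExt (hF N) h') :
    g' (al N j) = h' (al N j) := by
  have h1 : Tendsto (fun i => g' ((xs N j (i + 1) : Fm 5) : Fh 5)) atTop (𝓝 (g' (al N j))) :=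
    ((hg.1.tendsto _).comp (al_lim N j hj)).comp (tendsto_add_atTop_nat 1)
  have h2 : Tendsto (fun i => h' ((xs N j i : Fm 5) : Fh 5)) atTop (𝓝 (h' (al N j))) :=
    (hh.1.tendsto _).comp (al_lim N j hj)
  have h3 : (fun i => g' ((xs N j (i + 1) : Fm 5) : Fh 5)) =
      fun i => h' ((xs N j i : Fm 5) : Fh 5) := by
    funext i
    rw [hg.2, hh.2]
    exact congrArg _ (h_xs N j hj i).symm
  rw [h3] at h1
  exact tendsto_nhds_unique h1 h2

/-- the words of the approximations begin with the inverse of `W j` and `c` -/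
theorem xs_start (N j : ℕ) (hj : j ≤ N) (i : ℕ) : ∃ s : List (Fin 5 × Bool),
    FreeGroup.toWord (xs N j i : F5) = FreeGroup.invRev (W j).toWord ++ (2, true) :: s := by
  obtain ⟨R, hR⟩ := it_add N j hj 0 i
  rw [zero_add] at hR
  refine ⟨ios R, ?_⟩
  rw [xs_word, hR, ios_append]
  simp [it, ios, io]

theorem lcpl_first {β : Type} [DecidableEq β] (c : β) (u v s s' : List β) (hu : c ∉ u) (hv : c ∉ v)
    (huv : u ≠ v) : lcpl (u ++ c :: s) (v ++ c :: s') ≤ u.length := by
  induction u generalizing v with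
  | nil =>
    cases v with
    | nil => exact absurd rfl huv
    | cons b v =>
      simp only [List.nil_append, List.cons_append, lcpl_cons]
      rw [if_neg (by rintro rfl; simp at hv)]
      exact Nat.zero_le _
  | cons a u ih =>
    cases v with
    | nil =>
      simp only [List.nil_append, List.cons_append, lcpl_cons]
      rw [if_neg (by rintro rfl; simp at hu)]
      exact Nat.zero_le _
    | cons b v =>
      simp only [List.cons_append, lcpl_cons]
      split_ifs with h
      · rw [List.length_cons]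
        refine Nat.succ_le_succ (ih v (fun h' => hu (by simp [h'])) (fun h' => hv (by simp [h'])) ?_)
        rintro rfl
        exact huv (by rw [h])
      · exact Nat.zero_le _

theorem c_not_mem (j : ℕ) : ((2, true) : Fin 5 × Bool) ∉ FreeGroup.invRev (W j).toWord := by
  intro h
  rcases mem_invRev_TB (TB_W j) _ h with h | h <;> exact absurd h (by decide)

theorem al_inj (N j k : ℕ) (hj : j ≤ N) (hk : k ≤ N) (h : al N j = al N k) : j = k := by
  by_contra hne
  have huv : FreeGroup.invRev (W j).toWord ≠ FreeGroup.invRev (W k).toWord := by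
    intro h'
    rw [← FreeGroup.toWord_inv, ← FreeGroup.toWord_inv] at h'
    exact hne (W_inj (inv_injective (FreeGroup.toWord_injective h')))
  have h1 : ∀ i, (1 / 2 : ℝ) ^ (FreeGroup.invRev (W j).toWord).length ≤
      dist ((xs N j i : Fm 5) : Fh 5) ((xs N k i : Fm 5) : Fh 5) := by
    intro i
    rw [Completion.dist_eq]
    obtain ⟨s, hs⟩ := xs_start N j hj i
    obtain ⟨s', hs'⟩ := xs_start N k hk i
    have h2 : cp (xs N j i) (xs N k i) ≤ (FreeGroup.invRev (W j).toWord).length := by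
      unfold cp
      rw [hs, hs']
      exact lcpl_first _ _ _ _ _ (c_not_mem j) (c_not_mem k) huv
    refine le_dist_of_cp ?_ h2
    intro h3
    rw [← h3] at h2
    unfold cp at h2
    rw [lcpl_self, hs, List.length_append, List.length_cons] at h2
    omega
  have h2 := le_of_tendsto_of_tendsto' tendsto_const_nhds
    ((al_lim N j hj).dist (al_lim N k hk)) h1
  rw [h, dist_self] at h2
  have : (0 : ℝ) < (1 / 2 : ℝ) ^ (FreeGroup.invRev (W j).toWord).length := by positivity
  linarith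

theorem al_ne_one (N j : ℕ) (hj : j ≤ N) : al N j ≠ ((1 : Fm 5) : Fh 5) := by
  intro h
  have h1 : ∀ i, (1 : ℝ) ≤ dist ((xs N j i : Fm 5) : Fh 5) ((1 : Fm 5) : Fh 5) := by
    intro i
    rw [Completion.dist_eq]
    obtain ⟨s, hs⟩ := xs_start N j hj i
    have h3 : xs N j i ≠ 1 := by
      intro h3
      rw [h3] at hs
      change FreeGroup.toWord (1 : F5) = _ at hs
      rw [FreeGroup.toWord_one] at hs
      simp at hs
    have h2 : cp (xs N j i) 1 ≤ 0 := by
      change lcpl _ (FreeGroup.toWord (1 : F5)) ≤ 0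
      rw [FreeGroup.toWord_one, lcpl_nil_right]
    have := le_dist_of_cp h3 h2
    simpa using this
  have h2 := le_of_tendsto_of_tendsto' tendsto_const_nhds
    ((al_lim N j hj).dist tendsto_const_nhds) h1
  rw [h, dist_self] at h2
  linarith

theorem eq_set (N : ℕ) : {x : Fm 5 | gF x = hF N x} = {1} := by
  ext x
  constructor
  · intro h
    exact eq_trivial _ (TB_W _) x h
  · rintro rfl
    change gF 1 = hF N 1
    rw [map_one, map_one]

theorem al_reg (N j : ℕ) (hj : j ≤ N) (g' h' : Fh 5 → Fh 5) (hg : IsExt gF g') (hh : IsExt (hF N) h') :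
    al N j ∈ Reg gF (hF N) g' h' := by
  refine ⟨al_eq N j hj g' h' hg hh, ?_⟩
  rw [eq_set, Set.image_singleton, closure_singleton]
  exact al_ne_one N j hj

/-- more than `C` orbits -/
theorem main (C : ℕ) : ∃ φ ψ : Fm 5 →* Fm 5, Function.Injective φ ∧ Function.Injective ψ ∧
    {x | φ x = ψ x} = {1} ∧ (∃ φ', IsExt φ φ') ∧ (∃ ψ', IsExt ψ ψ') ∧
    ∀ φ' ψ' : Fh 5 → Fh 5, IsExt φ φ' → IsExt ψ ψ' →
      ¬ ∃ s : Finset (Fh 5), s.card ≤ C ∧
        ∀ α ∈ Reg φ ψ φ' ψ', ∃ β ∈ s, ∃ x : Fm 5, φ x = ψ x ∧ α = lmul x β := by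
  refine ⟨gF, hF C, inj_g, inj_h _ (TB_W _), eq_set C, ⟨_, isExt_map gF uc_g⟩,
    ⟨_, isExt_map (hF C) (uc_h C)⟩, ?_⟩
  classical
  rintro φ' ψ' hφ hψ ⟨s, hs, h⟩
  have h1 : (Finset.range (C + 1)).image (al C) ⊆ s := by
    intro α hα
    rw [Finset.mem_image] at hα
    obtain ⟨j, hj, rfl⟩ := hα
    rw [Finset.mem_range] at hj
    obtain ⟨β, hβ, x, hx, e⟩ := h _ (al_reg C j (by omega) φ' ψ' hφ hψ)
    have h2 : x ∈ ({1} : Set (Fm 5)) := by
      rw [← eq_set C]
      exact hx
    rw [Set.mem_singleton_iff] at h2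
    rw [h2, lmul_one] at e
    rw [e]
    exact hβ
  have h2 := Finset.card_le_card h1
  rw [Finset.card_image_of_injOn, Finset.card_range] at h2
  · omega
  · intro j hj k hk hjk
    simp only [Finset.coe_range, Set.mem_Iio] at hj hk
    exact al_inj C j k (by omega) (by omega) hjk

end Pool.Agent.H219_EQ
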